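import Pool.Agent.Helper97.SZ.Goals

/-!
# Project SZ, packet POIN: Poincare lemma for 2-forms with support in a cube
-/

set_option autoImplicit false

open Set Filter Topology Metric MeasureTheory
open scoped ContDiff
open Pool.Agent.Helper91.SY Pool.Agent.Helper97.SZ

namespace Pool.Agent.Helper77.SZ

section ops

variable {E : Type} [NormedAddCommGroup E] [NormedSpace ℝ E]
variable {F : Type} [NormedAddCommGroup F] [NormedSpace ℝ F]
variable {G : Type} [NormedAddCommGroup G] [NormedSpace ℝ G]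

lemma ray_int (f : E → F) (hf : Continuous f) (hs : HasCompactSupport f) (e x : E) (he : e ≠ 0) :
    Integrable (fun s : ℝ => f (x - s • e)) := by
  have hemb : IsClosedEmbedding (fun s : ℝ => x - s • e) :=
    (Homeomorph.subLeft x).isClosedEmbedding.comp (isClosedEmbedding_smul_left he)
  exact (hf.comp hemb.continuous).integrable_of_hasCompactSupport (hs.comp_isClosedEmbedding hemb)

lemma T1_comm [CompleteSpace F] [CompleteSpace G] (L : F →L[ℝ] G) (f : E → F) (hf : Continuous f)
    (hs : HasCompactSupport f) (e x : E) (he : e ≠ 0) :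
    T1 e (fun y => L (f y)) x = L (T1 e f x) :=
  L.integral_comp_comm (ray_int f hf hs e x he).integrableOn

lemma TL_comm [CompleteSpace F] [CompleteSpace G] (L : F →L[ℝ] G) (f : E → F) (hf : Continuous f)
    (hs : HasCompactSupport f) (e x : E) (he : e ≠ 0) :
    TL e (fun y => L (f y)) x = L (TL e f x) :=
  L.integral_comp_comm (ray_int f hf hs e x he)

lemma T1_sub (f g : E → F) (hf : Continuous f) (hfs : HasCompactSupport f) (hg : Continuous g)
    (hgs : HasCompactSupport g) (e x : E) (he : e ≠ 0) :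
    T1 e (fun y => f y - g y) x = T1 e f x - T1 e g x :=
  integral_sub (ray_int f hf hfs e x he).integrableOn (ray_int g hg hgs e x he).integrableOn

lemma T1_zero (f : E → F) (e x : E) (h : ∀ s : ℝ, 0 < s → f (x - s • e) = 0) : T1 e f x = 0 := by
  unfold T1
  exact setIntegral_eq_zero_of_forall_eq_zero fun s hs => h s hs

lemma TL_zero (f : E → F) (e x : E) (h : ∀ s : ℝ, f (x - s • e) = 0) : TL e f x = 0 := by
  unfold TL
  simp [h]

lemma T2_zero (f : E → F) (e e' x : E) (h : ∀ s : ℝ, 0 < s → ∀ r : ℝ, f (x - s • e' - r • e) = 0) :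
    T2 e e' f x = 0 := by
  unfold T2
  refine setIntegral_eq_zero_of_forall_eq_zero fun s hs => ?_
  simp [h s hs]

lemma T1_eq_TL (f : E → F) (e x : E) (h : ∀ s : ℝ, s ≤ 0 → f (x - s • e) = 0) :
    T1 e f x = TL e f x := by
  unfold T1 TL
  rw [setIntegral_eq_integral_of_forall_compl_eq_zero]
  intro s hs
  exact h s (not_lt.mp hs)

lemma T2_int (f : E → F) (e e' x : E) (hT : Continuous (TL e f)) (hs : HasCompactSupport f) (c : E →L[ℝ] ℝ)
    (he : c e = 0) (he' : c e' = 1) : Integrable (fun s : ℝ => TL e f (x - s • e')) := by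
  have hcont : Continuous (fun s : ℝ => TL e f (x - s • e')) :=
    hT.comp (continuous_const.sub (continuous_id.smul continuous_const))
  refine hcont.integrable_of_hasCompactSupport ?_
  obtain ⟨M, hM⟩ := (hs.isCompact.image c.continuous).isBounded.exists_norm_le
  refine HasCompactSupport.intro (K := Icc (c x - M) (c x + M)) isCompact_Icc fun s hs' => ?_
  refine TL_zero _ _ _ fun r => ?_
  by_contra hne
  have h1 : x - s • e' - r • e ∈ tsupport f := subset_tsupport _ hne
  have h2 := hM _ (mem_image_of_mem c h1)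
  rw [map_sub, map_sub, map_smul, map_smul, he, he', smul_zero, sub_zero, smul_eq_mul, mul_one,
    Real.norm_eq_abs, abs_le] at h2
  exact hs' ⟨by linarith, by linarith⟩

lemma T2_add (f g : E → F) (e e' x : E) (hne : e ≠ 0) (hf : Continuous f) (hTf : Continuous (TL e f))
    (hfs : HasCompactSupport f) (hg : Continuous g) (hTg : Continuous (TL e g))
    (hgs : HasCompactSupport g) (c : E →L[ℝ] ℝ) (he : c e = 0) (he' : c e' = 1) :
    T2 e e' (fun y => f y + g y) x = T2 e e' f x + T2 e e' g x := by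
  have h1 : ∀ s : ℝ, (∫ r : ℝ, (f (x - s • e' - r • e) + g (x - s • e' - r • e))) =
      TL e f (x - s • e') + TL e g (x - s • e') := fun s =>
    integral_add (ray_int f hf hfs e _ hne) (ray_int g hg hgs e _ hne)
  unfold T2
  simp only [h1]
  exact integral_add (T2_int f e e' x hTf hfs c he he').integrableOn
    (T2_int g e e' x hTg hgs c he he').integrableOn

end ops

section coef

variable {E : Type} [NormedAddCommGroup E] [NormedSpace ℝ E]

lemma coef1 (η : E → E →L[ℝ] E →L[ℝ] ℝ) (hη : ContDiff ℝ ∞ η) (u : E) :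
    ContDiff ℝ ∞ (fun y => η y u) := hη.clm_apply contDiff_const

lemma coef2 (η : E → E →L[ℝ] E →L[ℝ] ℝ) (hη : ContDiff ℝ ∞ η) (u v : E) :
    ContDiff ℝ ∞ (fun y => η y u v) := (coef1 η hη u).clm_apply contDiff_const

lemma supp1 (η : E → E →L[ℝ] E →L[ℝ] ℝ) (hη : HasCompactSupport η) (u : E) :
    HasCompactSupport (fun y => η y u) := by
  refine hη.mono ?_
  intro y hy hy'
  exact hy (show η y u = 0 by rw [hy', zero_apply])

lemma supp2 (η : E → E →L[ℝ] E →L[ℝ] ℝ) (hη : HasCompactSupport η) (u v : E) :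
    HasCompactSupport (fun y => η y u v) := by
  refine hη.mono ?_
  intro y hy hy'
  exact hy (show η y u v = 0 by rw [hy', zero_apply, zero_apply])

lemma d1 (η : E → E →L[ℝ] E →L[ℝ] ℝ) (hη : Differentiable ℝ η) (u y w : E) :
    fderiv ℝ (fun z => η z u) y w = fderiv ℝ η y w u := by
  have h := ((hη y).hasFDerivAt.clm_apply (hasFDerivAt_const u y)).fderiv
  rw [h]
  simp

lemma d2 (η : E → E →L[ℝ] E →L[ℝ] ℝ) (hη : Differentiable ℝ η) (u v y w : E) :
    fderiv ℝ (fun z => η z u v) y w = fderiv ℝ η y w u v := by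
  have h := (((hη y).hasFDerivAt.clm_apply (hasFDerivAt_const u y)).clm_apply
      (hasFDerivAt_const v y)).fderiv
  rw [h]
  simp

lemma dsm {F : Type} [NormedAddCommGroup F] [NormedSpace ℝ F] (f : E → F) (hf : ContDiff ℝ ∞ f)
    (w : E) : ContDiff ℝ ∞ (fun y => fderiv ℝ f y w) :=
  (hf.fderiv_right (m := ∞) (by simp)).clm_apply contDiff_const

lemma dsupp {F : Type} [NormedAddCommGroup F] [NormedSpace ℝ F] (f : E → F)
    (hf : HasCompactSupport f) (w : E) : HasCompactSupport (fun y => fderiv ℝ f y w) :=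
  hf.fderiv_apply ℝ w

lemma anti (η : E → E →L[ℝ] E →L[ℝ] ℝ) (halt : ∀ x u, η x u u = 0) (x u v : E) :
    η x u v = - η x v u := by
  have h := halt x (u + v)
  have h2 : η x (u + v) (u + v) = η x u u + η x u v + (η x v u + η x v v) := by
    simp only [map_add, add_apply]
    ring
  rw [h2, halt, halt, zero_add, add_zero] at h
  linarith

lemma danti (η : E → E →L[ℝ] E →L[ℝ] ℝ) (hη : Differentiable ℝ η) (halt : ∀ x u, η x u u = 0)
    (x w u v : E) : fderiv ℝ η x w u v = - fderiv ℝ η x w v u := by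
  rw [← d2 η hη, ← d2 η hη]
  have : (fun z => η z u v) = fun z => - η z v u := funext fun z => anti η halt z u v
  rw [this, fderiv_fun_neg]
  rfl

end coef

section main

variable {E : Type} [NormedAddCommGroup E] [NormedSpace ℝ E] [FiniteDimensional ℝ E]

lemma ddbeta (hLI : StmtLI) (e e' : E) (hli : LinearIndependent ℝ ![e, e']) (hne : e ≠ 0)
    (η : E → E →L[ℝ] E →L[ℝ] ℝ) (hη : ContDiff ℝ ∞ η) (hcs : HasCompactSupport η)
    (hcl : ∀ x u v w, fderiv ℝ η x u v w - fderiv ℝ η x v u w + fderiv ℝ η x w u v = 0) :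
    ContDiff ℝ ∞ (T1 e (fun y => η y e)) ∧ ∀ x, dd (T1 e (fun y => η y e)) x = η x := by
  have hηd : Differentiable ℝ η := hη.differentiable (by simp)
  obtain ⟨hA1, hA2⟩ := (hLI E (E →L[ℝ] ℝ) e e' (fun y => η y e) hli (coef1 η hη e)
    (supp1 η hcs e)).1
  refine ⟨hA1, fun x => ?_⟩
  have hX : ∀ w v, fderiv ℝ (T1 e (fun y => η y e)) x w v =
      T1 e (fun y => fderiv ℝ (fun z => η z e) y w v) x := fun w v => by
    rw [hA2]
    exact (T1_comm (ContinuousLinearMap.apply ℝ ℝ v) (fun y => fderiv ℝ (fun z => η z e) y w)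
      (dsm _ (coef1 η hη e) w).continuous (dsupp _ (supp1 η hcs e) w) e x hne).symm
  ext u v
  have h1 : dd (T1 e (fun y => η y e)) x u v = fderiv ℝ (T1 e (fun y => η y e)) x u v -
      fderiv ℝ (T1 e (fun y => η y e)) x v u := rfl
  have h2 : ∀ w v', Continuous (fun y => fderiv ℝ (fun z => η z e) y w v') := fun w v' =>
    (dsm _ (coef1 η hη e) w).continuous.clm_apply continuous_const
  have h3 : ∀ w v', HasCompactSupport (fun y => fderiv ℝ (fun z => η z e) y w v') := fun w v' => by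
    refine (dsupp _ (supp1 η hcs e) w).mono ?_
    intro y hy hy'
    have hy2 : fderiv ℝ (fun z => η z e) y w = 0 := hy'
    exact hy (show fderiv ℝ (fun z => η z e) y w v' = 0 by rw [hy2, zero_apply])
  rw [h1, hX, hX, ← T1_sub _ _ (h2 _ _) (h3 _ _) (h2 _ _) (h3 _ _) e x hne]
  obtain ⟨-, -, -, h4, -, -, -⟩ := hLI E ℝ e e' (fun y => η y u v) hli (coef2 η hη u v)
    (supp2 η hcs u v)
  rw [← h4 x]
  congr 1
  funext y
  rw [d1 η hηd, d1 η hηd, d2 η hηd]
  have := hcl y e u v
  linarith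

lemma dgtheta (hLI : StmtLI) (e e' : E) (hli : LinearIndependent ℝ ![e, e']) (hne : e ≠ 0)
    (c : E →L[ℝ] ℝ) (he : c e = 0) (he' : c e' = 1)
    (η : E → E →L[ℝ] E →L[ℝ] ℝ) (hη : ContDiff ℝ ∞ η) (hcs : HasCompactSupport η)
    (halt : ∀ x u, η x u u = 0)
    (hcl : ∀ x u v w, fderiv ℝ η x u v w - fderiv ℝ η x v u w + fderiv ℝ η x w u v = 0) :
    ContDiff ℝ ∞ (T2 e e' (fun y => η y e e')) ∧
      ∀ x, fderiv ℝ (T2 e e' (fun y => η y e e')) x = TL e (fun y => η y e) x := by
  have hηd : Differentiable ℝ η := hη.differentiable (by simp)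
  obtain ⟨-, -, ⟨hA1, hA2⟩, -⟩ := hLI E ℝ e e' (fun y => η y e e') hli (coef2 η hη e e')
    (supp2 η hcs e e')
  refine ⟨hA1, fun x => ?_⟩
  ext v
  have hX : TL e (fun y => η y e) x v = TL e (fun y => η y e v) x :=
    (TL_comm (ContinuousLinearMap.apply ℝ ℝ v) (fun y => η y e)
      (coef1 η hη e).continuous (supp1 η hcs e) e x hne).symm
  rw [hX, hA2]
  have h1 : (fun y => fderiv ℝ (fun y => η y e e') y v) =
      fun y => fderiv ℝ (fun y => η y v e') y e + fderiv ℝ (fun y => η y e v) y e' := by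
    funext y
    rw [d2 η hηd, d2 η hηd, d2 η hηd]
    have h2 := hcl y v e e'
    have h3 := danti η hηd halt y e' v e
    linarith
  have hT : ∀ f : E → ℝ, ContDiff ℝ ∞ f → HasCompactSupport f → Continuous (TL e f) :=
    fun f hf hf' => (hLI E ℝ e e' f hli hf hf').2.1.1.continuous
  rw [h1, T2_add _ _ e e' x hne (dsm _ (coef2 η hη v e') e).continuous
    (hT _ (dsm _ (coef2 η hη v e') e) (dsupp _ (supp2 η hcs v e') e))
    (dsupp _ (supp2 η hcs v e') e) (dsm _ (coef2 η hη e v) e').continuous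
    (hT _ (dsm _ (coef2 η hη e v) e') (dsupp _ (supp2 η hcs e v) e'))
    (dsupp _ (supp2 η hcs e v) e') c he he']
  obtain ⟨-, -, -, -, -, -, h7⟩ := hLI E ℝ e e' (fun y => η y v e') hli (coef2 η hη v e')
    (supp2 η hcs v e')
  obtain ⟨-, -, -, -, -, h6, -⟩ := hLI E ℝ e e' (fun y => η y e v) hli (coef2 η hη e v)
    (supp2 η hcs e v)
  rw [h7, h6, zero_add]

/-- smooth step from `0` (for `s ≤ -R`) to `1` (for `R ≤ s`) -/
noncomputable def chi (R s : ℝ) : ℝ := Real.smoothTransition ((s + R) / (2 * R))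

lemma chi_smooth (R : ℝ) : ContDiff ℝ ∞ (chi R) :=
  Real.smoothTransition.contDiff.comp ((contDiff_id.add contDiff_const).div_const _)

lemma chi_zero (R s : ℝ) (hR : 0 < R) (h : s ≤ -R) : chi R s = 0 := by
  unfold chi
  refine Real.smoothTransition.zero_of_nonpos ?_
  exact div_nonpos_of_nonpos_of_nonneg (by linarith) (by linarith)

lemma chi_one (R s : ℝ) (hR : 0 < R) (h : R ≤ s) : chi R s = 1 := by
  unfold chi
  refine Real.smoothTransition.one_of_one_le ?_
  rw [le_div_iff₀ (by linarith)]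
  linarith

lemma dd_sub_fderiv (a : E → E →L[ℝ] ℝ) (h : E → ℝ) (ha : ContDiff ℝ ∞ a) (hh : ContDiff ℝ ∞ h)
    (x : E) : dd (fun y => a y - fderiv ℝ h y) x = dd a x := by
  have h1 : DifferentiableAt ℝ a x := (ha.differentiable (by simp)) x
  have h2 : DifferentiableAt ℝ (fderiv ℝ h) x :=
    ((hh.fderiv_right (m := ∞) (by simp)).differentiable (by simp)) x
  have hsym : IsSymmSndFDerivAt ℝ h x := hh.contDiffAt.isSymmSndFDerivAt (by
    rw [minSmoothness_of_isRCLikeNormedField]
    exact WithTop.coe_le_coe.mpr (le_top : (2 : ℕ∞) ≤ ⊤))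
  have h3 : fderiv ℝ (fun y => a y - fderiv ℝ h y) x = fderiv ℝ a x - fderiv ℝ (fderiv ℝ h) x :=
    fderiv_fun_sub h1 h2
  ext u v
  have h4 : dd (fun y => a y - fderiv ℝ h y) x u v =
    fderiv ℝ (fun y => a y - fderiv ℝ h y) x u v - fderiv ℝ (fun y => a y - fderiv ℝ h y) x v u := rfl
  have h5 : dd a x u v = fderiv ℝ a x u v - fderiv ℝ a x v u := rfl
  have h6 : ∀ u v, (fderiv ℝ a x - fderiv ℝ (fderiv ℝ h) x) u v =
      fderiv ℝ a x u v - fderiv ℝ (fderiv ℝ h) x u v := fun u v => rfl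
  rw [h4, h5, h3, h6, h6, hsym u v]
  ring

theorem poin_abs (hLI : StmtLI) {ι : Type} (c : ι → E →L[ℝ] ℝ) (i0 i1 i2 : ι) (e e' e'' : E)
    (h01 : i0 ≠ i1) (h02 : i0 ≠ i2) (h12 : i1 ≠ i2)
    (hb0 : ∀ i, i ≠ i0 → c i e = 0) (hb0' : c i0 e = 1)
    (hb1 : ∀ i, i ≠ i1 → c i e' = 0) (hb1' : c i1 e' = 1)
    (hb2 : ∀ i, i ≠ i2 → c i e'' = 0) (hb2' : c i2 e'' = 1)
    (hc : ∀ i x, |c i x| ≤ ‖x‖) (R : ℝ) (hR : 0 < R) (hn : ∀ x, R < ‖x‖ → ∃ i, R < |c i x|)
    (η : E → E →L[ℝ] E →L[ℝ] ℝ) (hη : ContDiff ℝ ∞ η) (halt : ∀ x u, η x u u = 0)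
    (hcl : ∀ x u v w, fderiv ℝ η x u v w - fderiv ℝ η x v u w + fderiv ℝ η x w u v = 0)
    (hsupp : ∀ x, R ≤ ‖x‖ → η x = 0) :
    ∃ β : E → E →L[ℝ] ℝ, ContDiff ℝ ∞ β ∧ (∀ x, R ≤ ‖x‖ → β x = 0) ∧ ∀ x, dd β x = η x := by
  have hne : e ≠ 0 := fun h => by
    rw [h, map_zero] at hb0'
    exact zero_ne_one hb0'
  have hli : LinearIndependent ℝ ![e, e'] := by
    rw [LinearIndependent.pair_iff]
    intro s t hst
    constructor
    · have := congrArg (c i0) hst
      rwa [map_add, map_smul, map_smul, map_zero, hb0', hb1 _ h01, smul_zero, add_zero,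
        smul_eq_mul, mul_one] at this
    · have := congrArg (c i1) hst
      rwa [map_add, map_smul, map_smul, map_zero, hb1', hb0 _ h01.symm, smul_zero, zero_add,
        smul_eq_mul, mul_one] at this
  have hproper : ProperSpace E := FiniteDimensional.proper ℝ E
  have hcs : HasCompactSupport η := by
    refine HasCompactSupport.intro (isCompact_closedBall (0 : E) R) fun x hx => hsupp x ?_
    rw [mem_closedBall_zero_iff, not_le] at hx
    exact hx.le
  obtain ⟨hβ1, hβ2⟩ := ddbeta hLI e e' hli hne η hη hcs hcl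
  obtain ⟨hg1, hg2⟩ := dgtheta hLI e e' hli hne (c i1) (hb0 _ h01.symm) hb1' η hη hcs halt hcl
  have hv : ∀ i x, R ≤ |c i x| → η x = 0 := fun i x h => hsupp x (h.trans (hc i x))
  have F1 : ∀ i x, i ≠ i0 → R ≤ |c i x| → T1 e (fun y => η y e) x = 0 ∧
      TL e (fun y => η y e) x = 0 := by
    intro i x hi hx
    have h : ∀ s : ℝ, η (x - s • e) e = 0 := fun s => by
      rw [hv i (x - s • e) (by rwa [map_sub, map_smul, hb0 i hi, smul_zero, sub_zero]), zero_apply]
    exact ⟨T1_zero _ _ _ fun s _ => h s, TL_zero _ _ _ h⟩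
  have F2 : ∀ i x, i ≠ i0 → i ≠ i1 → R ≤ |c i x| → T2 e e' (fun y => η y e e') x = 0 := by
    intro i x hi hi' hx
    refine T2_zero _ _ _ _ fun s _ r => ?_
    rw [hv i (x - s • e' - r • e) (by
      rwa [map_sub, map_sub, map_smul, map_smul, hb0 i hi, hb1 i hi', smul_zero, sub_zero,
        smul_zero, sub_zero]), zero_apply, zero_apply]
  have F3 : ∀ x, c i0 x ≤ -R → T1 e (fun y => η y e) x = 0 := by
    intro x hx
    refine T1_zero _ _ _ fun s hs => ?_
    rw [hv i0 (x - s • e) (by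
      rw [map_sub, map_smul, hb0', smul_eq_mul, mul_one, le_abs]
      right
      linarith), zero_apply]
  have F4 : ∀ x, R ≤ c i0 x → T1 e (fun y => η y e) x = TL e (fun y => η y e) x := by
    intro x hx
    refine T1_eq_TL _ _ _ fun s hs => ?_
    rw [hv i0 (x - s • e) (by
      rw [map_sub, map_smul, hb0', smul_eq_mul, mul_one, le_abs]
      left
      linarith), zero_apply]
  have F5 : ∀ x, c i1 x ≤ -R → T2 e e' (fun y => η y e e') x = 0 := by
    intro x hx
    refine T2_zero _ _ _ _ fun s hs r => ?_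
    rw [hv i1 (x - s • e' - r • e) (by
      rw [map_sub, map_sub, map_smul, map_smul, hb0 i1 h01.symm, hb1', smul_zero, sub_zero,
        smul_eq_mul, mul_one, le_abs]
      right
      linarith), zero_apply, zero_apply]
  have F6 : ∀ x, R ≤ c i1 x → T2 e e' (fun y => η y e e') x = 0 := by
    intro x hx
    have hgd : Differentiable ℝ (T2 e e' (fun y => η y e e')) := hg1.differentiable (by simp)
    have hline : ∀ t : ℝ, HasDerivAt (fun t : ℝ => x + t • e'') e'' t := fun t => by
      simpa using ((hasDerivAt_id t).smul_const e'').const_add x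
    have hder : ∀ t : ℝ, HasDerivAt (fun t : ℝ => T2 e e' (fun y => η y e e') (x + t • e'')) 0 t := by
      intro t
      have h1 := (hgd (x + t • e'')).hasFDerivAt.comp_hasDerivAt t (hline t)
      have h2 : fderiv ℝ (T2 e e' (fun y => η y e e')) (x + t • e'') e'' = 0 := by
        rw [hg2, (F1 i1 (x + t • e'') h01.symm (by
          rw [map_add, map_smul, hb2 i1 h12, smul_zero, add_zero, le_abs]
          exact Or.inl hx)).2, zero_apply]
      rw [h2] at h1
      exact h1
    have hconst := is_const_of_deriv_eq_zero (fun t => (hder t).differentiableAt)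
      (fun t => (hder t).deriv) 0 (R - c i2 x)
    simp only [zero_smul, add_zero] at hconst
    rw [hconst]
    refine F2 i2 _ h02.symm h12.symm ?_
    rw [map_add, map_smul, hb2', smul_eq_mul, mul_one, add_sub_cancel]
    exact le_abs_self R
  have hhs : ContDiff ℝ ∞ (fun y => chi R (c i0 y) * T2 e e' (fun y => η y e e') y) :=
    ((chi_smooth R).comp (c i0).contDiff).mul hg1
  refine ⟨fun x => T1 e (fun y => η y e) x -
    fderiv ℝ (fun y => chi R (c i0 y) * T2 e e' (fun y => η y e e') y) x,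
    hβ1.sub (hhs.fderiv_right (m := ∞) (by simp)), ?_, fun x => ?_⟩
  swap
  · rw [dd_sub_fderiv _ _ hβ1 hhs, hβ2]
  have hcont : Continuous (fun x => T1 e (fun y => η y e) x -
    fderiv ℝ (fun y => chi R (c i0 y) * T2 e e' (fun y => η y e e') y) x) :=
    (hβ1.sub (hhs.fderiv_right (m := ∞) (by simp))).continuous
  have hmain : ∀ x, R < ‖x‖ → T1 e (fun y => η y e) x -
      fderiv ℝ (fun y => chi R (c i0 y) * T2 e e' (fun y => η y e e') y) x = 0 := by
    intro x hx
    obtain ⟨i, hi⟩ := hn x hx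
    by_cases hi0 : i = i0
    · rw [hi0] at hi
      rcases lt_abs.mp hi with h | h
      · have hev : (fun y => chi R (c i0 y) * T2 e e' (fun y => η y e e') y) =ᶠ[𝓝 x]
            T2 e e' (fun y => η y e e') := by
          filter_upwards [(c i0).continuous.continuousAt.eventually (lt_mem_nhds h)] with y hy
          rw [chi_one R _ hR (le_of_lt hy), one_mul]
        rw [hev.fderiv_eq, hg2, F4 x h.le, sub_self]
      · have h' : c i0 x < -R := by linarith
        have hev : (fun y => chi R (c i0 y) * T2 e e' (fun y => η y e e') y) =ᶠ[𝓝 x]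
            fun _ => 0 := by
          filter_upwards [(c i0).continuous.continuousAt.eventually (gt_mem_nhds h')] with y hy
          rw [chi_zero R _ hR (le_of_lt hy), zero_mul]
        rw [hev.fderiv_eq, F3 x h'.le]
        simp
    · have h1 := F1 i x hi0 hi.le
      have h2 : T2 e e' (fun y => η y e e') x = 0 := by
        by_cases hi1 : i = i1
        · rw [hi1] at hi
          rcases lt_abs.mp hi with h | h
          · exact F6 x h.le
          · exact F5 x (by linarith)
        · exact F2 i x hi0 hi1 hi.le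
      have h3 : fderiv ℝ (fun y => chi R (c i0 y) * T2 e e' (fun y => η y e e') y) x = 0 := by
        have h4 : DifferentiableAt ℝ (fun y => chi R (c i0 y)) x :=
          ((chi_smooth R).comp (c i0).contDiff).differentiable (by simp) x
        rw [fderiv_fun_mul h4 (hg1.differentiable (by simp) x), hg2, h1.2, h2]
        simp
      rw [h1.1, h3, sub_zero]
  intro x hx
  have hcl2 : x ∈ closure ((closedBall (0 : E) R)ᶜ) := by
    rw [closure_compl, interior_closedBall _ hR.ne', mem_compl_iff, mem_ball_zero_iff, not_lt]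
    exact hx
  have hsub : (closedBall (0 : E) R)ᶜ ⊆ {x | T1 e (fun y => η y e) x -
      fderiv ℝ (fun y => chi R (c i0 y) * T2 e e' (fun y => η y e e') y) x = 0} := fun y hy =>
    hmain y (by rwa [mem_compl_iff, mem_closedBall_zero_iff, not_le] at hy)
  exact closure_minimal hsub (isClosed_eq hcont continuous_const) hcl2

end main

/-- coordinates on `V n` -/
noncomputable def crd (n : ℕ) : Fin n ⊕ Fin n → V n →L[ℝ] ℝ
  | Sum.inl i => (ContinuousLinearMap.proj i).comp (ContinuousLinearMap.fst ℝ _ _)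
  | Sum.inr i => (ContinuousLinearMap.proj i).comp (ContinuousLinearMap.snd ℝ _ _)

/-- Poincare lemma with support in a cube -/
theorem poin (hLI : StmtLI) : StmtPOIN := by
  intro n hn η R hR hη halt hcl hsupp
  have hl : ∀ (i : Fin n) (x : V n), crd n (Sum.inl i) x = x.1 i := fun i x => rfl
  have hr : ∀ (i : Fin n) (x : V n), crd n (Sum.inr i) x = x.2 i := fun i x => rfl
  have hone : (⟨1, by omega⟩ : Fin n) ≠ ⟨0, by omega⟩ := by simp [Fin.ext_iff]
  refine poin_abs hLI (crd n) (Sum.inl ⟨0, by omega⟩) (Sum.inl ⟨1, by omega⟩)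
    (Sum.inr ⟨0, by omega⟩) (Pi.single ⟨0, by omega⟩ 1, 0) (Pi.single ⟨1, by omega⟩ 1, 0)
    (0, Pi.single ⟨0, by omega⟩ 1) ?_ ?_ ?_ ?_ ?_ ?_ ?_ ?_ ?_ ?_ R hR ?_ η hη halt hcl hsupp
  · simp [Fin.ext_iff]
  · simp
  · simp
  · rintro (i | i) hi
    · rw [hl]
      have : i ≠ ⟨0, by omega⟩ := fun h => hi (by rw [h])
      exact Pi.single_eq_of_ne this 1
    · rw [hr]
      rfl
  · rw [hl]
    simp
  · rintro (i | i) hi
    · rw [hl]
      have : i ≠ ⟨1, by omega⟩ := fun h => hi (by rw [h])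
      exact Pi.single_eq_of_ne this 1
    · rw [hr]
      rfl
  · rw [hl]
    simp
  · rintro (i | i) hi
    · rw [hl]
      rfl
    · rw [hr]
      have : i ≠ ⟨0, by omega⟩ := fun h => hi (by rw [h])
      exact Pi.single_eq_of_ne this 1
  · rw [hr]
    simp
  · rintro (i | i) x
    · rw [hl]
      exact (norm_le_pi_norm x.1 i).trans (norm_fst_le x)
    · rw [hr]
      exact (norm_le_pi_norm x.2 i).trans (norm_snd_le x)
  · intro x hx
    by_contra hcon
    push Not at hcon
    have h1 : ‖x.1‖ ≤ R := (pi_norm_le_iff_of_nonneg hR.le).mpr fun i => hcon (Sum.inl i)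
    have h2 : ‖x.2‖ ≤ R := (pi_norm_le_iff_of_nonneg hR.le).mpr fun i => hcon (Sum.inr i)
    exact absurd hx (not_lt.mpr (max_le h1 h2))

end Pool.Agent.Helper77.SZ
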